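import Mathlib
import Pool.Agent.Helper9.CY.Types

/-!
# Moving points along a curve of solutions

Zero-cycles on powers of the curve `z ^ m = ∏ (t - c_b) ^ n_b`: points whose first coordinates are
the roots of polynomials `F_j` are moved to points which are ramification points, along a curve
given by polynomials `Φ_j (u, T)` with `Φ_j (0, T) = F_j`.
-/

set_option linter.unusedSectionVars false
set_option linter.unusedVariables false

namespace CY

open VC VP VF Function Polynomial

universe u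

section enum

lemma exists_enum {ι α : Type*} [DecidableEq ι] [Inhabited α] (s : Finset ι) :
    ∀ M : Multiset α, Multiset.card M = s.card → ∃ f : ι → α, s.val.map f = M := by
  induction s using Finset.induction_on with
  | empty =>
    intro M hM
    rw [Finset.card_empty, Multiset.card_eq_zero] at hM
    exact ⟨fun _ => default, by rw [hM]; rfl⟩
  | insert a s ha ih =>
    intro M hM
    rw [Finset.card_insert_of_notMem ha] at hM
    obtain ⟨x, hx⟩ := Multiset.card_pos_iff_exists_mem.mp (by omega : 0 < Multiset.card M)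
    obtain ⟨M', rfl⟩ := Multiset.exists_cons_of_mem hx
    rw [Multiset.card_cons] at hM
    obtain ⟨f, hf⟩ := ih M' (by omega)
    refine ⟨update f a x, ?_⟩
    rw [Finset.insert_val_of_notMem ha, Multiset.map_cons, update_self, ← hf]
    congr 1
    apply Multiset.map_congr rfl
    intro i hi
    exact update_of_ne (by rintro rfl; exact ha hi) _ _

lemma exists_perm_of_fibers {ι Y : Type*} [Fintype ι] [DecidableEq Y] (G H : ι → Y)
    (h : ∀ y, Fintype.card {i // G i = y} = Fintype.card {i // H i = y}) :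
    ∃ π : Equiv.Perm ι, ∀ i, H (π i) = G i := by
  have e : ∀ y, {i // G i = y} ≃ {i // H i = y} := fun y => Fintype.equivOfCardEq (h y)
  refine ⟨(Equiv.sigmaFiberEquiv G).symm.trans ((Equiv.sigmaCongrRight e).trans
    (Equiv.sigmaFiberEquiv H)), fun i => ?_⟩
  exact (e (G i) ⟨i, rfl⟩).2

lemma exists_perm {ι α J : Type*} [Fintype ι] [DecidableEq ι] [DecidableEq α] [DecidableEq J]
    (B : Finset ι) (χ : ι → J) (t t' : ι → α)
    (h : ∀ j, (B.filter (fun i => χ i = j)).val.map t' =
      (B.filter (fun i => χ i = j)).val.map t) :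
    ∃ π : Equiv.Perm ι, (∀ i, i ∉ B → π i = i) ∧ (∀ i, χ (π i) = χ i) ∧
      ∀ i ∈ B, π i ∈ B ∧ t' i = t (π i) := by
  classical
  let G : (ι → α) → ι → (J × α) ⊕ ι := fun f i => if i ∈ B then Sum.inl (χ i, f i) else Sum.inr i
  have hG : ∀ f i, i ∈ B → G f i = Sum.inl (χ i, f i) := fun f i hi => if_pos hi
  have hG' : ∀ f i, i ∉ B → G f i = Sum.inr i := fun f i hi => if_neg hi
  have hcard : ∀ (f : ι → α) (j : J) (x : α), Fintype.card {i // G f i = Sum.inl (j, x)} =
      Multiset.count x ((B.filter (fun i => χ i = j)).val.map f) := by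
    intro f j x
    rw [Multiset.count_map, Fintype.card_subtype]
    change _ = (Finset.filter (fun i => x = f i) (B.filter (fun i => χ i = j))).card
    congr 1
    ext i
    simp only [Finset.mem_filter, Finset.mem_univ, true_and]
    by_cases hi : i ∈ B
    · rw [hG f i hi, Sum.inl.injEq, Prod.mk.injEq]
      exact ⟨fun h => ⟨⟨hi, h.1⟩, h.2.symm⟩, fun h => ⟨h.1.2, h.2.symm⟩⟩
    · rw [hG' f i hi]
      simp [hi]
  have hcard' : ∀ (f : ι → α) (i : ι), (Finset.univ.filter (fun l => G f l = Sum.inr i)) =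
      Finset.univ.filter (fun l => l ∉ B ∧ l = i) := by
    intro f i
    ext l
    simp only [Finset.mem_filter, Finset.mem_univ, true_and]
    by_cases hl : l ∈ B
    · rw [hG f l hl]; simp [hl]
    · rw [hG' f l hl]; simp [hl]
  obtain ⟨π, hπ⟩ := exists_perm_of_fibers (G t') (G t) (by
    rintro (⟨j, x⟩ | i)
    · rw [hcard, hcard, h]
    · rw [Fintype.card_subtype, Fintype.card_subtype, hcard', hcard'])
  have h1 : ∀ i, i ∉ B → π i = i := by
    intro i hi
    have h2 := hπ i
    rw [hG' t' i hi] at h2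
    by_cases h3 : π i ∈ B
    · rw [hG t _ h3] at h2; cases h2
    · rw [hG' t _ h3] at h2; exact Sum.inr.inj h2
  have h2 : ∀ i ∈ B, π i ∈ B ∧ χ (π i) = χ i ∧ t' i = t (π i) := by
    intro i hi
    have h2 := hπ i
    rw [hG t' i hi] at h2
    by_cases h3 : π i ∈ B
    · rw [hG t _ h3] at h2
      have h4 := Prod.ext_iff.mp (Sum.inl.inj h2)
      exact ⟨h3, h4.1, h4.2.symm⟩
    · rw [hG' t _ h3] at h2; cases h2
  refine ⟨π, h1, fun i => ?_, fun i hi => ⟨(h2 i hi).1, (h2 i hi).2.2⟩⟩
  by_cases hi : i ∈ B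
  · exact (h2 i hi).2.1
  · rw [h1 i hi]

end enum

section roots

variable {k : Type u} [Field k] {m : ℕ}

/-- A function field containing the roots of polynomials with coefficients in `k [τ]` and radicals
of values at the roots. -/
lemma exists_field (hm : m ≠ 0) {N : ℕ} {J : Type} [Fintype J] [DecidableEq J]
    (B : Finset (Fin N)) (χ : Fin N → J) (Φ : J → k[X][X]) (hΦ : ∀ j, Φ j ≠ 0)
    (hdeg : ∀ j, (Φ j).natDegree = (B.filter (fun i => χ i = j)).card) (R : k[X]) :
    ∃ (K : Type u) (_ : Field K) (_ : Algebra k K) (τ : K) (t z : Fin N → K),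
      IsFunctionField k K ∧ Transcendental k τ ∧
      (∀ j, (Φ j).map (aeval τ : k[X] →ₐ[k] K).toRingHom =
        C (aeval τ (Φ j).leadingCoeff) * ∏ i ∈ B.filter (fun i => χ i = j), (X - C (t i))) ∧
      ∀ i, z i ^ m = aeval (t i) R := by
  classical
  set τ0 : RatFunc k := RatFunc.X with hτ0
  set Q : J → (RatFunc k)[X] := fun j => (Φ j).map (aeval τ0 : k[X] →ₐ[k] RatFunc k).toRingHom
    with hQ
  have hlc : ∀ j, aeval τ0 (Φ j).leadingCoeff ≠ 0 := fun j =>
    aeval_ne_zero transcendental_ratX (leadingCoeff_ne_zero.mpr (hΦ j))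
  have hQd : ∀ j, (Q j).natDegree = (Φ j).natDegree := fun j =>
    natDegree_map_of_leadingCoeff_ne_zero _ (hlc j)
  have hQl : ∀ j, (Q j).leadingCoeff = aeval τ0 (Φ j).leadingCoeff := fun j =>
    leadingCoeff_map_of_leadingCoeff_ne_zero _ (hlc j)
  have hQ0 : ∀ j, Q j ≠ 0 := by
    intro j h0
    apply hlc j
    rw [← hQl, h0, leadingCoeff_zero]
  obtain ⟨K1, _, _, _, _, hK1, hs⟩ := exists_splits (ff_ratFunc (k := k)) (∏ j, Q j)
  have hsp : ∀ j, ((Q j).map (algebraMap (RatFunc k) K1)).Splits := by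
    intro j
    apply hs.of_dvd
    · rw [Ne, Polynomial.map_eq_zero]
      exact Finset.prod_ne_zero_iff.mpr (fun i _ => hQ0 i)
    · exact Polynomial.map_dvd _ (Finset.dvd_prod_of_mem _ (Finset.mem_univ j))
  have henum : ∀ j, ∃ f : Fin N → K1, (B.filter (fun i => χ i = j)).val.map f =
      ((Q j).map (algebraMap (RatFunc k) K1)).roots := by
    intro j
    have : Inhabited K1 := ⟨0⟩
    apply exists_enum
    rw [← (hsp j).natDegree_eq_card_roots, natDegree_map, hQd, hdeg]
  choose f hf using henum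
  set t1 : Fin N → K1 := fun i => f (χ i) i with ht1
  have hfac : ∀ j, (Q j).map (algebraMap (RatFunc k) K1) =
      C (algebraMap (RatFunc k) K1 (aeval τ0 (Φ j).leadingCoeff)) *
        ∏ i ∈ B.filter (fun i => χ i = j), (X - C (t1 i)) := by
    intro j
    have h1 := (hsp j).eq_prod_roots
    rw [h1, leadingCoeff_map, hQl]
    congr 1
    rw [← hf j, Multiset.map_map]
    change _ = ((B.filter (fun i => χ i = j)).val.map (fun i => (X - C (t1 i)))).prod
    congr 1
    apply Multiset.map_congr rfl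
    intro i hi
    have hi' : χ i = j := (Finset.mem_filter.mp hi).2
    simp only [Function.comp, ht1, hi']
  obtain ⟨K, _, _, _, _, z, hK, hz⟩ := exists_roots hK1 hm (fun i => aeval (t1 i) R)
  refine ⟨K, inferInstance, inferInstance, algebraMap K1 K (algebraMap (RatFunc k) K1 τ0),
    fun i => algebraMap K1 K (t1 i), z, hK, ?_, ?_, ?_⟩
  · exact (transcendental_algebraMap_iff (algebraMap K1 K).injective).mpr
      ((transcendental_algebraMap_iff (algebraMap (RatFunc k) K1).injective).mpr
      transcendental_ratX)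
  · intro j
    have h1 := congrArg (Polynomial.map (algebraMap K1 K)) (hfac j)
    rw [hQ] at h1
    simp only [Polynomial.map_map, Polynomial.map_mul, Polynomial.map_prod, Polynomial.map_sub,
      Polynomial.map_C, Polynomial.map_X] at h1
    have h2 : (algebraMap K1 K).comp ((algebraMap (RatFunc k) K1).comp
        (aeval τ0 : k[X] →ₐ[k] RatFunc k).toRingHom) =
        (aeval (algebraMap K1 K (algebraMap (RatFunc k) K1 τ0)) : k[X] →ₐ[k] K).toRingHom := by
      apply RingHom.ext
      intro q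
      change algebraMap K1 K (algebraMap (RatFunc k) K1 (aeval τ0 q)) = aeval _ q
      rw [aeval_algebraMap_apply, aeval_algebraMap_apply]
    rw [h2] at h1
    rw [h1]
    congr 2
    rw [aeval_algebraMap_apply, aeval_algebraMap_apply]
  · intro i
    rw [hz, aeval_algebraMap_apply]

end roots

section residues

variable {k K : Type u} [Field k] [IsAlgClosed k] [CharZero k] [Field K] [Algebra k K]

/-- Over `τ = a` the roots of `Φ (τ, T)` are regular if the leading coefficient does not vanish at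
`a`. -/
lemma exists_res_root (hK : IsFunctionField k K) {v : Place k K} {τ : K} {a : k}
    (hτ : IsRes v τ a) {Φ : k[X][X]} (hl : Φ.leadingCoeff.eval a ≠ 0) {t : K}
    (ht : (Φ.map (aeval τ : k[X] →ₐ[k] K).toRingHom).eval t = 0) : ∃ b, IsRes v t b := by
  apply exists_res hK
  by_contra hmem
  have ht0 : t ≠ 0 := by rintro rfl; exact hmem v.ring.zero_mem
  have hinv : IsRes v t⁻¹ 0 := by
    rw [isRes_zero_iff, ValuationSubring.mem_nonunits_iff_or, inv_inv]
    exact Or.inr hmem
  have h1 : ∑ d ∈ Finset.range (Φ.natDegree + 1),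
      aeval τ (Φ.coeff d) * t⁻¹ ^ (Φ.natDegree - d) = 0 := by
    have h2 : (Φ.map (aeval τ : k[X] →ₐ[k] K).toRingHom).eval t =
        ∑ d ∈ Finset.range (Φ.natDegree + 1), aeval τ (Φ.coeff d) * t ^ d := by
      rw [eval_map, eval₂_eq_sum_range]
      rfl
    rw [h2] at ht
    have h3 := congrArg (fun x => t⁻¹ ^ Φ.natDegree * x) ht
    simp only [mul_zero, Finset.mul_sum] at h3
    rw [← h3]
    apply Finset.sum_congr rfl
    intro d hd
    have hd' : d ≤ Φ.natDegree := by
      have := Finset.mem_range.mp hd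
      omega
    obtain ⟨e, he⟩ := Nat.exists_eq_add_of_le hd'
    rw [he, Nat.add_sub_cancel_left, pow_add, inv_pow, inv_pow]
    have : t ^ d ≠ 0 := pow_ne_zero _ ht0
    field_simp
  have h4 : IsRes v (∑ d ∈ Finset.range (Φ.natDegree + 1),
      aeval τ (Φ.coeff d) * t⁻¹ ^ (Φ.natDegree - d)) (∑ d ∈ Finset.range (Φ.natDegree + 1),
      (Φ.coeff d).eval a * 0 ^ (Φ.natDegree - d)) :=
    IsRes.sum _ fun d _ => hτ.poly.mul (hinv.pow _)
  rw [h1] at h4
  have h5 := h4.unique (isRes_zero (v := v))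
  rw [Finset.sum_eq_single Φ.natDegree] at h5
  · rw [Nat.sub_self, pow_zero, mul_one] at h5
    exact hl h5
  · intro d hd hne
    have := Finset.mem_range.mp hd
    rw [zero_pow (by omega), mul_zero]
  · intro h
    exact absurd (Finset.mem_range.mpr (Nat.lt_succ_self _)) h

/-- The residues of the roots. -/
lemma prod_res {v : Place k K} {τ : K} {a : k} (hτ : IsRes v τ a) {Φ : k[X][X]} {ι : Type*}
    (s : Finset ι) {t : ι → K} {b : ι → k} (hb : ∀ i ∈ s, IsRes v (t i) (b i))
    (hΦ : Φ.map (aeval τ : k[X] →ₐ[k] K).toRingHom =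
      C (aeval τ Φ.leadingCoeff) * ∏ i ∈ s, (X - C (t i))) :
    Φ.map (evalRingHom a) = C (Φ.leadingCoeff.eval a) * ∏ i ∈ s, (X - C (b i)) := by
  apply Polynomial.funext
  intro x
  have h1 : (Φ.map (aeval τ : k[X] →ₐ[k] K).toRingHom).eval (algebraMap k K x) =
      aeval τ (Φ.eval (C x)) := by
    rw [eval_map, ← AlgHom.coe_toRingHom, ← Polynomial.eval₂_hom]
    congr 1
    change _ = aeval τ (C x)
    rw [aeval_C]
  have h2 : IsRes v ((Φ.map (aeval τ : k[X] →ₐ[k] K).toRingHom).eval (algebraMap k K x))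
      ((Φ.eval (C x)).eval a) := by
    rw [h1]; exact hτ.poly
  rw [hΦ, eval_mul, eval_C, eval_prod] at h2
  have h3 : IsRes v (aeval τ Φ.leadingCoeff * ∏ i ∈ s, (X - C (t i)).eval (algebraMap k K x))
      (Φ.leadingCoeff.eval a * ∏ i ∈ s, (X - C (b i)).eval x) := by
    apply hτ.poly.mul
    apply IsRes.prod
    intro i hi
    simp only [eval_sub, eval_X, eval_C]
    exact (isRes_const x).sub (hb i hi)
  have h4 := h2.unique h3
  have h5 : (Φ.map (evalRingHom a)).eval x = (Φ.eval (C x)).eval a := by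
    rw [eval_map, ← coe_evalRingHom a, ← Polynomial.eval₂_hom]
    congr 1
    simp
  rw [h5, h4, eval_mul, eval_C, eval_prod]

end residues

section blk

variable {k : Type u} [Field k] [IsAlgClosed k] [CharZero k] {m : ℕ} [NeZero m]
  {E : AddChar (ZMod m) k} {a : ℕ} {F : MvPolynomial (Fin 2) k} {hF : F.IsHomogeneous (m * a)}
  {N : ℕ} {B : Finset (Fin N)} {χ : Fin N → ZMod m} {ψ : (Fin N → CrvPt k k m a F) → k}

lemma Blk.tw_prod (hψ : Blk hF E B χ ψ) (x : Fin N → ZMod m) (q : Fin N → CrvPt k k m a F)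
    (B' : Finset (Fin N)) (hB' : B' ⊆ B) :
    ψ (fun i => if i ∈ B' then tw E (x i) (q i) else q i) =
      (∏ i ∈ B', E (χ i * x i)) * ψ q := by
  classical
  induction B' using Finset.induction_on with
  | empty => simp
  | insert i0 B' h ih =>
    have h1 := hψ.equi i0 (hB' (Finset.mem_insert_self _ _))
      (fun i => if i ∈ B' then tw E (x i) (q i) else q i) (x i0)
    have h2 : update (fun i => if i ∈ B' then tw E (x i) (q i) else q i) i0
        (tw E (x i0) ((fun i => if i ∈ B' then tw E (x i) (q i) else q i) i0)) =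
        fun i => if i ∈ insert i0 B' then tw E (x i) (q i) else q i := by
      funext i
      by_cases hi : i = i0
      · subst hi
        rw [update_self]
        simp [h]
      · rw [update_of_ne hi]
        simp [hi]
    rw [h2] at h1
    rw [h1, ih (fun i hi => hB' (Finset.mem_insert_of_mem hi)), Finset.prod_insert h, mul_assoc]

lemma Blk.perm (hψ : Blk hF E B χ ψ) (π : Equiv.Perm (Fin N)) (h1 : ∀ i, i ∉ B → π i = i)
    (h2 : ∀ i, χ (π i) = χ i) (q : Fin N → CrvPt k k m a F) :
    ψ (fun i => q (π i)) = ψ q := by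
  refine perm_induct χ B (fun π => ∀ q, ψ (fun i => q (π i)) = ψ q) (fun q => rfl) ?_ π h1 h2 q
  intro σ i j hi hj hij _ hσ q
  have := hσ (fun l => q (Equiv.swap i j l))
  rw [hψ.symm i hi j hj hij] at this
  exact this

lemma Blk.zero (hE : IsFull E) (hψ : Blk hF E B χ ψ) {q : Fin N → CrvPt k k m a F} {i : Fin N}
    (hi : i ∈ B) {R : Rep k k m (fun _ : Fin 1 => F)} (hR : q i = CY.mk _ R) (hw : R.w = 0) :
    ψ q = 0 := by
  have h1 : ψ (update q i (CY.mk _ R)) = 0 := by
    apply ram_zero (φ := fun P => ψ (update q i P)) hE (hψ.ne i hi) _ hw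
    intro c P
    have := hψ.equi i hi (update q i P) c
    rwa [update_idem, update_self] at this
  rwa [← hR, update_eq_self] at h1

lemma tw_apt {β : Type} [Fintype β] {c : β → k} {n : β → ℕ} {t z z' : k}
    {h : z ^ m = ∏ b, (t - algebraMap k k (c b)) ^ n b}
    {h' : z' ^ m = ∏ b, (t - algebraMap k k (c b)) ^ n b} (x : ZMod m) (hz : z' = E x * z) :
    apt a c n t z' h' = tw E x (apt a c n t z h) := by
  subst hz
  unfold apt cpt
  rw [tw_mk]
  rfl

lemma apt_eq_mk {K : Type u} [Field K] [Algebra k K] {β : Type} [Fintype β] {c : β → k}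
    {n : β → ℕ} {t z : K} (h : z ^ m = ∏ b, (t - algebraMap k K (c b)) ^ n b) :
    ∃ R, apt a c n t z h = mk _ R ∧ R.w = z :=
  ⟨_, rfl, rfl⟩

end blk

section aux

variable {k K : Type u} [Field k] [Field K] [Algebra k K]

lemma eval_eval_comm (Φ : k[X][X]) (a x : k) :
    (Φ.map (evalRingHom a)).eval x = (Φ.eval (C x)).eval a := by
  rw [eval_map, ← coe_evalRingHom a, ← Polynomial.eval₂_hom]
  congr 1
  simp

lemma eval_aeval_comm (Φ : k[X][X]) (τ : K) (x : k) :
    (Φ.map (aeval τ : k[X] →ₐ[k] K).toRingHom).eval (algebraMap k K x) =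
      aeval τ (Φ.eval (C x)) := by
  rw [eval_map, ← AlgHom.coe_toRingHom, ← Polynomial.eval₂_hom]
  congr 1
  change _ = aeval τ (C x)
  rw [aeval_C]

lemma prod_nonunits {R : ValuationSubring K} {ι : Type*} (s : Finset ι) {f : ι → K}
    (h : ∏ i ∈ s, f i ∈ R.nonunits) : ∃ i ∈ s, f i ∈ R.nonunits := by
  classical
  by_contra hcon
  push Not at hcon
  have key : (∏ i ∈ s, f i ≠ 0) ∧ (∏ i ∈ s, f i)⁻¹ ∈ R := by
    constructor
    · apply Finset.prod_ne_zero_iff.mpr
      intro i hi h0
      apply hcon i hi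
      rw [h0]
      exact nonunits_zero
    · rw [← Finset.prod_inv_distrib]
      apply prod_mem
      intro i hi
      have := hcon i hi
      rw [ValuationSubring.mem_nonunits_iff_or] at this
      push Not at this
      exact this.2
  rw [ValuationSubring.mem_nonunits_iff_or] at h
  rcases h with h | h
  · exact key.1 h
  · exact h key.2

/-- A quotient of polynomials in `τ` has a zero where the numerator vanishes to higher order. -/
lemma div_nonunits [IsAlgClosed k] [CharZero k] {v : Place k K} {τ : K}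
    (hτ : Transcendental k τ) {u : k} (hv : IsRes v τ u) {P Q : k[X]} (hQ : Q ≠ 0)
    (h : Q.rootMultiplicity u < P.rootMultiplicity u) :
    aeval τ P / aeval τ Q ∈ v.ring.nonunits := by
  obtain ⟨Q1, hQ1, hQ1'⟩ := exists_eq_pow_rootMultiplicity_mul_and_not_dvd Q hQ u
  obtain ⟨P1, hP1⟩ := (pow_dvd_pow (X - C u) (Nat.succ_le_of_lt h)).trans
    (pow_rootMultiplicity_dvd P u)
  have hne : τ - algebraMap k K u ≠ 0 := by
    intro h0
    apply hτ
    rw [sub_eq_zero.mp h0]
    exact isAlgebraic_algebraMap u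
  have hq : IsRes v (aeval τ Q1) (Q1.eval u) := hv.poly
  have hq0 : Q1.eval u ≠ 0 := fun h0 => hQ1' (dvd_iff_isRoot.mpr h0)
  obtain ⟨h1, h2⟩ := hq.inv_mem hq0
  have h3 : aeval τ P / aeval τ Q =
      (aeval τ P1 * (aeval τ Q1)⁻¹) * (τ - algebraMap k K u) := by
    conv_lhs => rw [hQ1, hP1]
    simp only [map_mul, map_pow, map_sub, aeval_X, aeval_C, Nat.succ_eq_add_one, pow_succ]
    have : (τ - algebraMap k K u) ^ (rootMultiplicity u Q) ≠ 0 := pow_ne_zero _ hne
    field_simp
  rw [h3]
  have h4 : IsRes v (aeval τ P1) (P1.eval u) := hv.poly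
  exact nonunits_mul (v.ring.mul_mem _ _ h4.mem h2) hv

variable {m : ℕ} [NeZero m]

lemma exists_const [IsAlgClosed k] [CharZero k] {a : ℕ} {β : Type} [Fintype β] {c : β → k}
    {n : β → ℕ} (hna : ∑ b, n b = m * a) {N : ℕ} {B : Finset (Fin N)} {χ : Fin N → ZMod m}
    {Φ : ZMod m → k[X][X]} {τ : K} {t z : Fin N → K}
    (hΦ : ∀ j, (Φ j).map (aeval τ : k[X] →ₐ[k] K).toRingHom =
      C (aeval τ (Φ j).leadingCoeff) * ∏ i ∈ B.filter (fun i => χ i = j), (X - C (t i)))
    (hz : ∀ i, z i ^ m = ∏ b, (t i - algebraMap k K (c b)) ^ n b)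
    {c0 : k} {S : k[X]}
    (hprod : ∏ j, ∏ b, ((Φ j).eval (C (c b))) ^ (j.val * n b) = C c0 * S ^ m)
    (hS : aeval τ S ≠ 0) :
    ∃ e : k, (∏ i ∈ B, z i ^ (χ i).val) * ∏ j, (aeval τ (Φ j).leadingCoeff) ^ (a * j.val) =
      algebraMap k K e * aeval τ S := by
  classical
  have hm : m ≠ 0 := NeZero.ne m
  set l : ZMod m → K := fun j => aeval τ (Φ j).leadingCoeff with hl
  set Bj : ZMod m → Finset (Fin N) := fun j => B.filter (fun i => χ i = j) with hBj
  set W : K := ∏ i ∈ B, z i ^ (χ i).val with hW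
  set L : K := ∏ j, (l j) ^ (a * j.val) with hL
  set s : K := ∏ j, ((-1 : K) ^ (Bj j).card) ^ (a * j.val) with hs
  have h1 : ∀ j b, l j * ∏ i ∈ Bj j, (t i - algebraMap k K (c b)) =
      (-1) ^ (Bj j).card * aeval τ ((Φ j).eval (C (c b))) := by
    intro j b
    rw [← eval_aeval_comm, hΦ j, eval_mul, eval_C, eval_prod]
    simp only [eval_sub, eval_X, eval_C]
    have : ∏ i ∈ Bj j, (t i - algebraMap k K (c b)) =
        (-1) ^ (Bj j).card * ∏ i ∈ Bj j, (algebraMap k K (c b) - t i) := by
      rw [← Finset.prod_const, ← Finset.prod_mul_distrib]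
      apply Finset.prod_congr rfl
      intro i _
      ring
    rw [this]
    ring
  have h2 : W ^ m = ∏ j, ∏ b, (∏ i ∈ Bj j, (t i - algebraMap k K (c b))) ^ (j.val * n b) := by
    rw [hW, ← Finset.prod_pow, ← Finset.prod_fiberwise (s := B) (g := χ)]
    apply Finset.prod_congr rfl
    intro j _
    have e1 : ∀ i ∈ B.filter (fun i => χ i = j), (z i ^ (χ i).val) ^ m =
        ∏ b, (t i - algebraMap k K (c b)) ^ (j.val * n b) := by
      intro i hi
      rw [(Finset.mem_filter.mp hi).2, ← pow_mul, mul_comm, pow_mul, hz i, ← Finset.prod_pow]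
      apply Finset.prod_congr rfl
      intro b _
      rw [← pow_mul, mul_comm]
    rw [Finset.prod_congr rfl e1, Finset.prod_comm]
    apply Finset.prod_congr rfl
    intro b _
    rw [Finset.prod_pow]
  have h3 : ∀ (f : ZMod m → K), (∏ j, f j ^ (a * j.val)) ^ m =
      ∏ j, ∏ b, f j ^ (j.val * n b) := by
    intro f
    rw [← Finset.prod_pow]
    apply Finset.prod_congr rfl
    intro j _
    rw [Finset.prod_pow_eq_pow_sum, ← Finset.mul_sum, hna, ← pow_mul]
    congr 1
    ring
  have h4 : (W * L) ^ m = s ^ m * (algebraMap k K c0 * aeval τ S ^ m) := by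
    rw [mul_pow, h2, hL, h3, hs, h3, ← Finset.prod_mul_distrib]
    have e2 : algebraMap k K c0 * aeval τ S ^ m = aeval τ (C c0 * S ^ m) := by
      rw [map_mul, map_pow, aeval_C]
    rw [e2, ← hprod, map_prod, ← Finset.prod_mul_distrib]
    apply Finset.prod_congr rfl
    intro j _
    rw [map_prod, ← Finset.prod_mul_distrib, ← Finset.prod_mul_distrib]
    apply Finset.prod_congr rfl
    intro b _
    rw [map_pow, ← mul_pow, ← mul_pow, ← h1 j b, mul_comm (l j)]
  have h5 : IsAlgebraic k (W * L / aeval τ S) := by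
    apply IsAlgebraic.of_pow (Nat.pos_of_ne_zero hm)
    rw [div_pow, h4]
    have e3 : s ^ m * (algebraMap k K c0 * aeval τ S ^ m) / aeval τ S ^ m =
        algebraMap k K ((∏ j, ((-1 : k) ^ (Bj j).card) ^ (a * j.val)) ^ m * c0) := by
      rw [← mul_assoc, mul_div_assoc, div_self (pow_ne_zero _ hS), mul_one, hs]
      simp only [map_mul, map_pow, map_prod, map_neg, map_one]
    rw [e3]
    exact isAlgebraic_algebraMap _
  obtain ⟨e, he⟩ := exists_const_of_not_transcendental (not_not.mpr h5)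
  refine ⟨e, ?_⟩
  rw [he, div_mul_cancel₀ _ hS]

end aux

variable {k : Type u} [Field k] [IsAlgClosed k] [CharZero k] {m : ℕ} [NeZero m]
  {E : AddChar (ZMod m) k}

/-- Suppose that the points `p_i`, `i ∈ B`, of the curve `z ^ m = ∏ (t - c_b) ^ n_b` have first
coordinates the roots of the polynomials `F_j = Φ_j (0, T)`, `j ∈ ZMod m`, where the polynomials
`Φ_j (u, T)` of degree at most `deg F_j` are such that `∏ Φ_j (u, c_b) ^ (j n_b)` is a constant
times an `m`-th power and some quotient `Φ_j (u, c_b) / Φ_j (u, c_b')` has a zero. Then a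
function as in `Blk` vanishes at `p`. -/
theorem curve_lemma (hE : IsFull E) {a : ℕ} {β : Type} [Fintype β] {c : β → k}
    (hc : Injective c) {n : β → ℕ} (hn0 : ∀ b, n b ≠ 0)
    (hn : (aform c n).IsHomogeneous (m * a)) (hna : ∑ b, n b = m * a)
    {N : ℕ} {B : Finset (Fin N)} {χ : Fin N → ZMod m} {ψ : (Fin N → CrvPt k k m a (aform c n)) → k}
    (hψ : Blk hn E B χ ψ) {p : Fin N → CrvPt k k m a (aform c n)} {t z : Fin N → k}
    (hz : ∀ i, z i ^ m = ∏ b, (t i - algebraMap k k (c b)) ^ n b)
    (hp : ∀ i ∈ B, p i = apt a c n (t i) (z i) (hz i))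
    (Φ : ZMod m → k[X][X]) (hdeg : ∀ j, (Φ j).natDegree ≤ (B.filter (fun i => χ i = j)).card)
    (h0 : ∀ j, (Φ j).map (evalRingHom 0) = ∏ i ∈ B.filter (fun i => χ i = j), (X - C (t i)))
    (c0 : k) (S : k[X]) (hprod : ∏ j, ∏ b, ((Φ j).eval (C (c b))) ^ (j.val * n b) = C c0 * S ^ m)
    (hend : ∃ (u0 : k) (j0 : ZMod m) (b0 b1 : β),
      ((Φ j0).eval (C (c b1))).rootMultiplicity u0 < ((Φ j0).eval (C (c b0))).rootMultiplicity u0) :
    ψ p = 0 := by
  classical
  have hm : m ≠ 0 := NeZero.ne m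
  -- ramification points
  by_cases hram : ∃ i ∈ B, z i = 0
  · obtain ⟨i, hi, hi0⟩ := hram
    obtain ⟨R, hR, hR'⟩ := apt_eq_mk (a := a) (hz i)
    exact hψ.zero hE hi ((hp i hi).trans hR) (hR'.trans hi0)
  push Not at hram
  have htc : ∀ i ∈ B, ∀ b, t i - c b ≠ 0 := by
    intro i hi b h1
    apply hram i hi
    have h2 := hz i
    rw [Finset.prod_eq_zero (Finset.mem_univ b) (by
      rw [Algebra.algebraMap_self, RingHom.id_apply, h1, zero_pow (hn0 b)])] at h2
    exact (pow_eq_zero_iff hm).mp h2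
  set Bj : ZMod m → Finset (Fin N) := fun j => B.filter (fun i => χ i = j) with hBj
  have hev0 : ∀ j b, ((Φ j).eval (C (c b))).eval 0 ≠ 0 := by
    intro j b
    rw [← eval_eval_comm, h0, eval_prod]
    apply Finset.prod_ne_zero_iff.mpr
    intro i hi
    simp only [eval_sub, eval_X, eval_C]
    intro h1
    apply htc i (Finset.mem_filter.mp hi).1 b
    linear_combination -h1
  have hev : ∀ j b, (Φ j).eval (C (c b)) ≠ 0 := by
    intro j b h1
    apply hev0 j b
    rw [h1, eval_zero]
  -- degrees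
  have hcoef : ∀ j, ((Φ j).coeff (Bj j).card).eval 0 = 1 := by
    intro j
    have h1 := congrArg (fun P => P.coeff (Bj j).card) (h0 j)
    simp only [coeff_map, coe_evalRingHom] at h1
    rw [h1]
    have h2 := monic_prod_X_sub_C t (Bj j)
    have h3 := natDegree_finsetProd_X_sub_C_eq_card (Bj j) t
    rw [Monic, leadingCoeff, h3] at h2
    exact h2
  have hdeg' : ∀ j, (Φ j).natDegree = (Bj j).card := by
    intro j
    apply le_antisymm (hdeg j)
    apply le_natDegree_of_ne_zero
    intro h1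
    have := hcoef j
    rw [h1, eval_zero] at this
    exact zero_ne_one this
  have hlc0 : ∀ j, (Φ j).leadingCoeff.eval 0 = 1 := by
    intro j
    rw [leadingCoeff, hdeg']
    exact hcoef j
  have hΦ0 : ∀ j, Φ j ≠ 0 := by
    intro j h1
    have := hlc0 j
    rw [h1, leadingCoeff_zero, eval_zero] at this
    exact zero_ne_one this
  -- the polynomial `S`
  have hS0 : S.eval 0 ≠ 0 := by
    intro h1
    have h2 := congrArg (Polynomial.eval 0) hprod
    rw [eval_mul, eval_pow, h1, zero_pow hm, mul_zero, eval_prod] at h2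
    refine Finset.prod_ne_zero_iff.mpr (fun j _ => ?_) h2
    rw [eval_prod]
    refine Finset.prod_ne_zero_iff.mpr (fun b _ => ?_)
    rw [eval_pow]
    exact pow_ne_zero _ (hev0 j b)
  -- the function field
  obtain ⟨K, _, _, τ, t', z', hK, hτ, hfac, hz'⟩ := exists_field hm B χ Φ hΦ0 hdeg'
    (∏ b, (X - C (c b)) ^ n b)
  have hz' : ∀ i, z' i ^ m = ∏ b, (t' i - algebraMap k K (c b)) ^ n b := by
    intro i
    rw [hz' i]
    simp [map_prod]
  have hSτ : aeval τ S ≠ 0 := aeval_ne_zero hτ (by rintro rfl; exact hS0 eval_zero)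
  obtain ⟨e, he⟩ := exists_const hna hfac hz' hprod hSτ
  choose cst hcst using fun i => cyc_const (hF := fun _ : Fin 1 => hn) K hK (p i)
  set P : Fin N → CrvPt k K m a (aform c n) := fun i =>
    if i ∈ B then apt a c n (t' i) (z' i) (hz' i) else cst i with hP
  have hP1 : ∀ i ∈ B, P i = apt a c n (t' i) (z' i) (hz' i) := fun i hi => if_pos hi
  have hP2 : ∀ i, i ∉ B → P i = cst i := fun i hi => if_neg hi
  have hroot : ∀ i ∈ B, ((Φ (χ i)).map (aeval τ : k[X] →ₐ[k] K).toRingHom).eval (t' i) = 0 := by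
    intro i hi
    have hi' : i ∈ B.filter (fun l => χ l = χ i) := Finset.mem_filter.mpr ⟨hi, rfl⟩
    rw [hfac, eval_mul, eval_prod, Finset.prod_eq_zero hi', mul_zero]
    simp
  set Z : k := ∏ i ∈ B, z i ^ (χ i).val with hZ
  have hZ0 : Z ≠ 0 := Finset.prod_ne_zero_iff.mpr fun i hi => pow_ne_zero _ (hram i hi)
  set A : k := e * S.eval 0 / Z with hA
  -- values over `τ = 0`
  have hval0 : ∀ v : Place k K, IsRes v τ 0 → A ≠ 0 ∧
      ψ (((crv m a (aform c n) hn).pow N).eval hK P v) = A * ψ p := by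
    intro v hv
    have hres : ∀ i, ∃ b, i ∈ B → IsRes v (t' i) b := by
      intro i
      by_cases hi : i ∈ B
      · obtain ⟨b, hb⟩ := exists_res_root hK hv (by rw [hlc0]; exact one_ne_zero) (hroot i hi)
        exact ⟨b, fun _ => hb⟩
      · exact ⟨0, fun h => absurd h hi⟩
    choose tb htb using hres
    have hres' : ∀ i, ∃ b, i ∈ B → IsRes v (z' i) b ∧
        b ^ m = ∏ b, (tb i - algebraMap k k (c b)) ^ n b := by
      intro i
      by_cases hi : i ∈ B
      · have h1 : IsRes v (z' i ^ m) (∏ b, (tb i - algebraMap k k (c b)) ^ n b) := by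
          rw [hz' i]
          exact IsRes.prod _ fun b _ => ((htb i hi).sub (isRes_const _)).pow _
        obtain ⟨b, hb⟩ := exists_res_of_pow hK hm h1
        exact ⟨b, fun _ => hb⟩
      · exact ⟨0, fun h => absurd h hi⟩
    choose zb hzb using hres'
    have hmult : ∀ j, (Bj j).val.map tb = (Bj j).val.map t := by
      intro j
      have h1 := prod_res hv (Bj j) (b := tb) (fun i hi => htb i (Finset.mem_filter.mp hi).1)
        (hfac j)
      rw [h0 j, hlc0, C_1, one_mul] at h1
      have h2 : ∀ f : Fin N → k, (∏ i ∈ Bj j, (X - C (f i))).roots = (Bj j).val.map f := by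
        intro f
        have : ∏ i ∈ Bj j, (X - C (f i)) =
            (((Bj j).val.map f).map (fun a => (X - C a))).prod := by
          rw [Multiset.map_map]; rfl
        rw [this, roots_multiset_prod_X_sub_C]
      rw [← h2 tb, ← h2 t]
      exact congrArg roots h1.symm
    obtain ⟨π, hπ1, hπ2, hπ3⟩ := exists_perm B χ t tb hmult
    have hx : ∀ i, ∃ x : ZMod m, i ∈ B → zb i = E x * z (π i) := by
      intro i
      by_cases hi : i ∈ B
      · have h1 : z (π i) ≠ 0 := hram _ (hπ3 i hi).1
        obtain ⟨x, hx⟩ := hE.2 (zb i / z (π i)) (by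
          rw [div_pow, (hzb i hi).2, hz (π i), ← (hπ3 i hi).2]
          apply div_self
          rw [(hπ3 i hi).2, ← hz (π i)]
          exact pow_ne_zero _ h1)
        exact ⟨x, fun _ => by rw [hx, div_mul_cancel₀ _ h1]⟩
      · exact ⟨0, fun h => absurd h hi⟩
    choose x hx using hx
    have hpt : ((crv m a (aform c n) hn).pow N).eval hK P v =
        fun i => if i ∈ B then tw E (x i) (p (π i)) else p (π i) := by
      funext i
      change (crv m a (aform c n) hn).eval hK (P i) v = _
      by_cases hi : i ∈ B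
      · rw [hP1 i hi, if_pos hi, eval_apt hn hK v (htb i hi) (hzb i hi).1 (hzb i hi).2, hp _ (hπ3 i hi).1]
        have h1 : zb i ^ m = ∏ b, (t (π i) - algebraMap k k (c b)) ^ n b := by
          rw [(hzb i hi).2, (hπ3 i hi).2]
        rw [apt_congr (h' := h1) (hπ3 i hi).2 rfl]
        exact tw_apt (x i) (hx i hi)
      · rw [hP2 i hi, if_neg hi, hcst, hπ1 i hi]
    have hprodE : ∏ i ∈ B, E (χ i * x i) = A := by
      have h1 : ∀ i ∈ B, E (χ i * x i) * z (π i) ^ (χ (π i)).val = zb i ^ (χ i).val := by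
        intro i hi
        rw [hx i hi, mul_pow, hπ2 i, ← AddChar.map_nsmul_eq_pow, nsmul_eq_mul, ZMod.natCast_val,
          ZMod.cast_id]
      have h2 : ∏ i ∈ B, z (π i) ^ (χ (π i)).val = Z := by
        rw [hZ]
        apply Finset.prod_nbij' (fun i => π i) (fun i => π.symm i)
        · intro i hi; exact (hπ3 i hi).1
        · intro i hi
          by_contra h3
          have h4 := hπ1 _ h3
          rw [Equiv.apply_symm_apply] at h4
          rw [← h4] at h3
          exact h3 hi
        · intro i _; simp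
        · intro i _; simp
        · intro i _; rfl
      have h3 : IsRes v (∏ i ∈ B, z' i ^ (χ i).val) (∏ i ∈ B, zb i ^ (χ i).val) :=
        IsRes.prod _ fun i hi => (hzb i hi).1.pow _
      have h4 : IsRes v (∏ j, (aeval τ (Φ j).leadingCoeff) ^ (a * j.val)) 1 := by
        have h5 : IsRes v (∏ j, (aeval τ (Φ j).leadingCoeff) ^ (a * j.val))
            (∏ j : ZMod m, ((Φ j).leadingCoeff.eval 0) ^ (a * j.val)) :=
          IsRes.prod _ fun j _ => (hv.poly).pow _
        simpa only [hlc0, one_pow, Finset.prod_const_one] using h5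
      have h5 := h3.mul h4
      rw [he, mul_one] at h5
      have h6 := h5.unique ((isRes_const e).mul hv.poly)
      rw [hA, eq_div_iff hZ0, ← h2, ← Finset.prod_mul_distrib, Finset.prod_congr rfl h1, h6]
    constructor
    · rw [← hprodE]
      exact Finset.prod_ne_zero_iff.mpr fun i _ => char_ne_zero E _
    · rw [hpt, hψ.tw_prod x (fun i => p (π i)) B (Finset.Subset.refl B), hprodE,
        hψ.perm π hπ1 hπ2 p]
  -- values over `τ = u0`
  obtain ⟨u0, j0, b0, b1, hlt⟩ := hend
  have hu0 : (0 : k) ≠ u0 := by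
    rintro rfl
    have h1 : 0 < ((Φ j0).eval (C (c b0))).rootMultiplicity 0 := lt_of_le_of_lt (Nat.zero_le _) hlt
    rw [rootMultiplicity_pos (hev j0 b0)] at h1
    exact hev0 j0 b0 h1
  have hval1 : ∀ v : Place k K, IsRes v τ u0 →
      ψ (((crv m a (aform c n) hn).pow N).eval hK P v) = 0 := by
    intro v hv
    have h1 := div_nonunits hτ hv (hev j0 b1) hlt
    have hne : ∀ i ∈ Bj j0, algebraMap k K (c b1) - t' i ≠ 0 := by
      intro i hi h2
      have h3 : aeval τ ((Φ j0).eval (C (c b1))) = 0 := by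
        rw [← eval_aeval_comm, hfac j0, eval_mul, eval_prod, Finset.prod_eq_zero hi, mul_zero]
        simpa using h2
      exact aeval_ne_zero hτ (hev j0 b1) h3
    have hl : aeval τ (Φ j0).leadingCoeff ≠ 0 :=
      aeval_ne_zero hτ (leadingCoeff_ne_zero.mpr (hΦ0 j0))
    have h2 : aeval τ ((Φ j0).eval (C (c b0))) / aeval τ ((Φ j0).eval (C (c b1))) =
        ∏ i ∈ Bj j0, (t' i - algebraMap k K (c b0)) / (t' i - algebraMap k K (c b1)) := by
      rw [← eval_aeval_comm, ← eval_aeval_comm, hfac j0, eval_mul, eval_mul, eval_C, eval_C,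
        mul_div_mul_left _ _ hl, eval_prod, eval_prod, ← Finset.prod_div_distrib]
      apply Finset.prod_congr rfl
      intro i _
      simp only [eval_sub, eval_X, eval_C]
      rw [← neg_sub (t' i), ← neg_sub (t' i), neg_div_neg_eq]
    rw [h2] at h1
    obtain ⟨i, hi, hi'⟩ := prod_nonunits _ h1
    have hiB : i ∈ B := (Finset.mem_filter.mp hi).1
    have h3 : IsRes v (t' i) (c b0) := by
      apply sub_mem_of_div _ hi'
      rw [← neg_sub]
      exact neg_ne_zero.mpr (hne i hi)
    obtain ⟨h4, h5⟩ := eval_apt_branch hn hK v (h := hz' i) (hn0 b0) h3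
    obtain ⟨R, hR, hR'⟩ := apt_eq_mk (a := a) h4
    apply hψ.zero hE hiB (R := R) _ hR'
    change (crv m a (aform c n) hn).eval hK (P i) v = _
    rw [hP1 i hiB, h5, hR]
  -- conclusion
  obtain ⟨v0, hv0⟩ := exists_place hK hτ
  have hA0 := (hval0 v0 (isRes_zero_iff.mpr hv0)).1
  have h1 := path hψ.kills hK P hτ hu0 (fun v hv => (hval0 v hv).2) hval1
  exact (mul_eq_zero.mp h1).resolve_left hA0

end CY
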